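import Pool.Agent.H19.TM.Stm4

/-!
# Project TM3: the module J4 (one step)
-/

set_option autoImplicit false

namespace Pool.Agent.H83.TM

open Finset Filter Topology Pool.Agent.Y862.GM Pool.Agent.H19.TM

theorem pr_succ_prime {z : ℕ} (hp : (z + 1).Prime) : pr (z + 1) = insert (z + 1) (pr z) := by
  ext q
  simp only [pr, mem_filter, mem_range, mem_insert]
  constructor
  · rintro ⟨h1, h3⟩
    by_cases hq : q = z + 1
    · left; exact hq
    · right; exact ⟨by omega, h3⟩
  · rintro (h | ⟨h1, h3⟩)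
    · subst h; exact ⟨by omega, hp⟩
    · exact ⟨by omega, h3⟩

theorem not_mem_pr (z : ℕ) : z + 1 ∉ pr z := by
  simp [pr]

theorem prime_of_mem {z : ℕ} : ∀ q ∈ pr z, q.Prime := by
  intro q hq
  exact (mem_filter.mp hq).2

/-- `log z` is at most a constant times `Lz z`. -/
theorem log_le_Lz (hJ3 : S_J3) : ∃ B : ℝ, 1 ≤ B ∧ ∀ z : ℕ, Real.log z ≤ B * Lz z := by
  obtain ⟨h1, hpos, -, -⟩ := hJ3
  obtain ⟨Z0, hZ⟩ := h1 (1 / 2) (by norm_num)
  have hlog : ∀ z : ℕ, 0 ≤ Real.log z := fun z => Real.log_natCast_nonneg z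
  have hnn : ∀ z : ℕ, 0 ≤ Real.log z / Lz z := fun z => div_nonneg (hlog z) (hpos z).le
  refine ⟨2 + ∑ z ∈ range (Z0 + 2), Real.log z / Lz z, ?_, ?_⟩
  · have : 0 ≤ ∑ z ∈ range (Z0 + 2), Real.log z / Lz z := sum_nonneg fun z _ => hnn z
    linarith
  · intro z
    have hs : 0 ≤ ∑ z ∈ range (Z0 + 2), Real.log z / Lz z := sum_nonneg fun z _ => hnn z
    by_cases hz : z < Z0 + 2
    · have h2 : Real.log z / Lz z ≤ ∑ z ∈ range (Z0 + 2), Real.log z / Lz z :=
        single_le_sum (f := fun z : ℕ => Real.log z / Lz z) (fun z _ => hnn z) (mem_range.2 hz)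
      have h3 : Real.log z / Lz z ≤ 2 + ∑ z ∈ range (Z0 + 2), Real.log z / Lz z := by linarith
      rwa [div_le_iff₀ (hpos z)] at h3
    · push Not at hz
      have h4 := hZ z (by omega)
      have hz2 : (1 : ℝ) < z := by exact_mod_cast (by omega : 1 < z)
      have hl : 0 < Real.log z := Real.log_pos hz2
      rw [abs_le] at h4
      have h5 : 1 / 2 ≤ Lz z / Real.log z := by linarith [h4.1]
      rw [le_div_iff₀ hl] at h5
      have h6 : 0 ≤ (∑ z ∈ range (Z0 + 2), Real.log z / Lz z) * Lz z := mul_nonneg hs (hpos z).le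
      nlinarith

/-- The argument `log N / Lz z` is bounded when `log N ≤ K log z`. -/
theorem arg_le {B K : ℝ} (hB : ∀ z : ℕ, Real.log z ≤ B * Lz z) (hpos : ∀ z : ℕ, 0 < Lz z)
    (hK : 1 ≤ K) {z N : ℕ} (h : Real.log N ≤ K * Real.log z) : Real.log N / Lz z ≤ K * B := by
  rw [div_le_iff₀ (hpos z)]
  have h1 := mul_le_mul_of_nonneg_left (hB z) (by linarith : (0 : ℝ) ≤ K)
  nlinarith

/-- the logarithm of an integer part -/
theorem log_div_floor {p N : ℕ} (hp : 0 < p) (hM : 0 < N / p) :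
    |Real.log N - Real.log (N / p : ℕ) - Real.log p| ≤ 1 / ((N / p : ℕ) : ℝ) := by
  have hpR : (0 : ℝ) < p := by exact_mod_cast hp
  have hMR : (0 : ℝ) < ((N / p : ℕ) : ℝ) := by exact_mod_cast hM
  have h1 : p * (N / p) ≤ N := Nat.mul_div_le N p
  have h2 : N < p * (N / p + 1) := Nat.lt_mul_div_succ N hp
  have h1R : (p : ℝ) * ((N / p : ℕ) : ℝ) ≤ N := by exact_mod_cast h1
  have h2R : (N : ℝ) ≤ p * (((N / p : ℕ) : ℝ) + 1) := by
    have : (N : ℝ) < p * (((N / p : ℕ) : ℝ) + 1) := by exact_mod_cast h2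
    exact this.le
  have hN : (0 : ℝ) < N := lt_of_lt_of_le (mul_pos hpR hMR) h1R
  have e1 : Real.log p + Real.log ((N / p : ℕ) : ℝ) ≤ Real.log N := by
    rw [← Real.log_mul hpR.ne' hMR.ne']
    exact Real.log_le_log (mul_pos hpR hMR) h1R
  have e2 : Real.log N ≤ Real.log p + Real.log ((N / p : ℕ) : ℝ) + 1 / ((N / p : ℕ) : ℝ) := by
    have h3 : (N : ℝ) ≤ (p * ((N / p : ℕ) : ℝ)) * (1 + 1 / ((N / p : ℕ) : ℝ)) := by
      have : (p * ((N / p : ℕ) : ℝ)) * (1 + 1 / ((N / p : ℕ) : ℝ)) = p * (((N / p : ℕ) : ℝ) + 1) := by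
        field_simp
      rw [this]
      exact h2R
    have h4 : 0 < 1 + 1 / ((N / p : ℕ) : ℝ) := by positivity
    have h5 := Real.log_le_log hN h3
    rw [Real.log_mul (mul_pos hpR hMR).ne' h4.ne', Real.log_mul hpR.ne' hMR.ne'] at h5
    have h6 := Real.log_le_sub_one_of_pos h4
    linarith
  rw [abs_le]
  constructor
  · have : 0 ≤ 1 / ((N / p : ℕ) : ℝ) := by positivity
    linarith
  · linarith

/-- One step. -/
theorem t_J4 (hG3 : S_G3) (hG2 : S_G2) (hJ2 : S_J2) (hJ3 : S_J3) : S_J4 := by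
  intro j hj K hK
  obtain ⟨B, hB1, hB⟩ := log_le_Lz hJ3
  obtain ⟨hM3, hpos, hstep, -⟩ := hJ3
  obtain ⟨C, hC, hbd, hlip, htay⟩ := hJ2 j hj (K * B)
  obtain ⟨C3, hC3, hG⟩ := hG3
  have hGb := hG2.1
  have hKB : 1 ≤ K * B := by nlinarith
  -- the argument
  have hu0 : ∀ z N : ℕ, 0 ≤ Real.log N / Lz z := fun z N =>
    div_nonneg (Real.log_natCast_nonneg N) (hpos z).le
  have hnext : ∀ z N : ℕ, (z + 1).Prime →
      Real.log N / Lz (z + 1) = Real.log N / Lz z * (1 - 1 / ((z + 1 : ℕ) : ℝ)) := by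
    intro z N hp
    have h := hstep z hp
    have h1 := hpos z
    have h2 := hpos (z + 1)
    rw [div_mul_eq_mul_div, div_eq_div_iff h2.ne' h1.ne', h]
    ring
  have hGdiff : ∀ z N : ℕ, (z + 1).Prime →
      |Gd (pr (z + 1)) N - ((1 - 4 / ((z + 1 : ℕ) : ℝ)) * Gd (pr z) N +
        4 / ((z + 1 : ℕ) : ℝ) * Gd (pr z) (N / (z + 1)))| ≤ C3 / ((z + 1 : ℕ) : ℝ) ^ 2 := by
    intro z N hp
    rw [pr_succ_prime hp]
    exact hG (pr z) prime_of_mem (z + 1) hp (not_mem_pr z) N
  refine ⟨(1 + C) + (4 + C3 + C * (K * B)) + (C3 + C), by positivity, ?_, ?_, ?_⟩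
  · intro z N hz hN hlog
    have h1 := hGb (pr z) prime_of_mem N
    have h2 := hbd _ (arg_le hB hpos hK hlog)
    have h3 : |Gd (pr z) N - j (Real.log N / Lz z)| ≤ |Gd (pr z) N| + |j (Real.log N / Lz z)| :=
      abs_sub _ _
    have h4 : |Gd (pr z) N| ≤ 1 := abs_le.2 ⟨by linarith [h1.1], h1.2⟩
    have h5 : 0 ≤ C * (K * B) := by positivity
    linarith
  · intro z N hz hp hN hlog
    set p : ℝ := ((z + 1 : ℕ) : ℝ) with hpdef
    have hp6 : (6 : ℝ) ≤ p := by
      rw [hpdef]; exact_mod_cast (by omega : 6 ≤ z + 1)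
    have hp0 : 0 < p := by linarith
    set u := Real.log N / Lz z with hu
    have hu1 : u ≤ K * B := arg_le hB hpos hK hlog
    have hu2 : 0 ≤ u := hu0 z N
    rw [hnext z N hp]
    have hv1 : u * (1 - 1 / p) ≤ K * B := by
      have : u * (1 - 1 / p) ≤ u * 1 := by
        apply mul_le_mul_of_nonneg_left _ hu2
        have : 0 ≤ 1 / p := by positivity
        linarith
      linarith
    have h1 := hlip _ _ hv1 hu1
    have h2 : |u * (1 - 1 / p) - u| = u / p := by
      have : u * (1 - 1 / p) - u = -(u / p) := by ring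
      rw [this, abs_neg, abs_of_nonneg (by positivity)]
    rw [h2] at h1
    have h3 : C * (u / p) ≤ C * (K * B) / p := by
      rw [← mul_div_assoc]
      exact div_le_div_of_nonneg_right (mul_le_mul_of_nonneg_left hu1 hC) hp0.le
    have h4 := hGdiff z N hp
    have g1 := hGb (pr z) prime_of_mem N
    have g2 := hGb (pr z) prime_of_mem (N / (z + 1))
    have h5 : |(1 - 4 / p) * Gd (pr z) N + 4 / p * Gd (pr z) (N / (z + 1)) - Gd (pr z) N| ≤ 4 / p := by
      have e : (1 - 4 / p) * Gd (pr z) N + 4 / p * Gd (pr z) (N / (z + 1)) - Gd (pr z) N =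
          4 / p * (Gd (pr z) (N / (z + 1)) - Gd (pr z) N) := by ring
      rw [e, abs_mul, abs_of_nonneg (by positivity : (0 : ℝ) ≤ 4 / p)]
      have : |Gd (pr z) (N / (z + 1)) - Gd (pr z) N| ≤ 1 := abs_le.2 ⟨by linarith [g1.2, g2.1], by linarith [g1.1, g2.2]⟩
      calc 4 / p * |Gd (pr z) (N / (z + 1)) - Gd (pr z) N| ≤ 4 / p * 1 :=
            mul_le_mul_of_nonneg_left this (by positivity)
        _ = 4 / p := mul_one _
    have h6 : C3 / p ^ 2 ≤ C3 / p := by
      apply div_le_div_of_nonneg_left hC3 hp0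
      nlinarith
    have h7 : |(Gd (pr (z + 1)) N - j (u * (1 - 1 / p))) - (Gd (pr z) N - j u)| ≤
        C3 / p ^ 2 + 4 / p + C * (u / p) := by
      have e : (Gd (pr (z + 1)) N - j (u * (1 - 1 / p))) - (Gd (pr z) N - j u) =
          (Gd (pr (z + 1)) N - ((1 - 4 / p) * Gd (pr z) N + 4 / p * Gd (pr z) (N / (z + 1)))) +
          ((1 - 4 / p) * Gd (pr z) N + 4 / p * Gd (pr z) (N / (z + 1)) - Gd (pr z) N) +
          -(j (u * (1 - 1 / p)) - j u) := by ring
      rw [e]
      refine (abs_add_le _ _).trans (add_le_add ((abs_add_le _ _).trans (add_le_add h4 h5)) ?_)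
      rw [abs_neg]
      exact h1
    refine h7.trans ?_
    have h8 : C3 / p + 4 / p + C * (K * B) / p = (4 + C3 + C * (K * B)) / p := by ring
    have h9 : (4 + C3 + C * (K * B)) / p ≤ ((1 + C) + (4 + C3 + C * (K * B)) + (C3 + C)) / p := by
      apply div_le_div_of_nonneg_right _ hp0.le
      linarith
    linarith
  · intro δ hδ
    -- the tolerance
    set η : ℝ := min (1 / 2) (δ / (12 * (C + 1))) with hη
    have hη0 : 0 < η := by
      rw [hη]
      apply lt_min (by norm_num)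
      positivity
    have hη1 : η ≤ 1 / 2 := min_le_left _ _
    have hη2 : C * (12 * η) ≤ δ := by
      have h1 : η ≤ δ / (12 * (C + 1)) := min_le_right _ _
      have h2 : 12 * (C + 1) * η ≤ δ := by
        rw [le_div_iff₀ (by positivity)] at h1
        linarith
      nlinarith
    obtain ⟨Z1, hZ1⟩ := hM3 η hη0
    obtain ⟨Z2, hZ2⟩ := exists_nat_gt (1 / η)
    refine ⟨Z1 + Z2 + 5, Z2 + 1, fun z N hz hp hpN hlog hM => ?_⟩
    set p : ℝ := ((z + 1 : ℕ) : ℝ) with hpdef
    have hp6 : (6 : ℝ) ≤ p := by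
      rw [hpdef]; exact_mod_cast (by omega : 6 ≤ z + 1)
    have hp0 : 0 < p := by linarith
    have hN1 : 1 < N := by omega
    set u := Real.log N / Lz z with hu
    have hu1 : u ≤ K * B := arg_le hB hpos hK hlog
    have hu2 : 0 < u := by
      apply div_pos _ (hpos z)
      exact Real.log_pos (by exact_mod_cast hN1)
    rw [hnext z N hp]
    set M : ℕ := N / (z + 1) with hMdef
    have hM0 : 0 < M := by omega
    set v := Real.log (M : ℝ) / Lz z with hv
    -- `v` is close to `u - 1`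
    have hz5 : (5 : ℝ) ≤ z := by exact_mod_cast (by omega : 5 ≤ z)
    have hlz : 1 ≤ Real.log z := by
      rw [← Real.log_exp 1]
      apply Real.log_le_log (Real.exp_pos 1)
      have := Real.exp_one_lt_d9
      linarith
    have hlz0 : 0 < Real.log z := by linarith
    have hL := hZ1 z (by omega)
    rw [abs_le, div_sub_one hlz0.ne', le_div_iff₀ hlz0, div_le_iff₀ hlz0] at hL
    obtain ⟨hL1, hL2⟩ := hL
    have hLh : 1 / 2 * Real.log z ≤ Lz z := by nlinarith
    have hLhalf : 1 / 2 ≤ Lz z := by linarith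
    have hlogp : |Real.log p - Real.log z| ≤ 1 / z := by
      have e : p = z * (1 + 1 / z) := by
        rw [hpdef]; push_cast; field_simp
      have hz0 : (0 : ℝ) < z := by linarith
      have h4 : (0 : ℝ) < 1 + 1 / z := by positivity
      rw [e, Real.log_mul hz0.ne' h4.ne', add_sub_cancel_left]
      rw [abs_of_nonneg (Real.log_nonneg (by have : (0 : ℝ) ≤ 1 / z := by positivity
                                             linarith))]
      have h6 := Real.log_le_sub_one_of_pos h4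
      linarith
    have hfl := log_div_floor (p := z + 1) (N := N) (by omega) (by rw [← hMdef]; exact hM0)
    rw [← hMdef, ← hpdef] at hfl
    have hz1 : 1 / (z : ℝ) ≤ η := by
      have h1 : (1 : ℝ) / η < z := by
        refine hZ2.trans_le ?_
        exact_mod_cast (by omega : Z2 ≤ z)
      rw [div_le_iff₀ (by linarith)]
      rw [div_lt_iff₀ hη0] at h1
      linarith
    have hM1 : 1 / (M : ℝ) ≤ η := by
      have hM0R : (0 : ℝ) < M := by exact_mod_cast hM0
      have h1 : (1 : ℝ) / η < M := by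
        refine hZ2.trans_le ?_
        exact_mod_cast (by omega : Z2 ≤ M)
      rw [div_le_iff₀ hM0R]
      rw [div_lt_iff₀ hη0] at h1
      linarith
    have hclose : |u - 1 - v| ≤ 12 * η := by
      have e : u - 1 - v = (Real.log N - Real.log M - Lz z) / Lz z := by
        rw [hu, hv]
        have := (hpos z).ne'
        field_simp
        ring
      rw [e, abs_div, abs_of_pos (hpos z), div_le_iff₀ (hpos z)]
      have h1 : |Real.log N - Real.log M - Lz z| ≤ η + η + η * Real.log z := by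
        rw [abs_le] at hfl hlogp ⊢
        constructor <;> linarith [hfl.1, hfl.2, hlogp.1, hlogp.2]
      nlinarith
    have hv1 : v ≤ K * B := by
      have : v ≤ u := by
        rw [hu, hv]
        apply div_le_div_of_nonneg_right _ (hpos z).le
        apply Real.log_le_log (by exact_mod_cast hM0)
        exact_mod_cast Nat.div_le_self N (z + 1)
      linarith
    have hx0 : 0 ≤ 1 / p := by positivity
    have hx1 : 1 / p ≤ 1 / 2 := by
      apply one_div_le_one_div_of_le (by norm_num)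
      linarith
    have t1 := htay u (1 / p) hu2 hu1 hx0 hx1
    have t2 := hlip (u - 1) v (by linarith) hv1
    have t3 : |j (u - 1) - j v| ≤ δ := by
      refine t2.trans ?_
      exact (mul_le_mul_of_nonneg_left hclose hC).trans hη2
    have h4 := hGdiff z N hp
    rw [← hpdef, ← hMdef] at h4
    have e : (Gd (pr (z + 1)) N - j (u * (1 - 1 / p))) -
        ((1 - 4 / p) * (Gd (pr z) N - j u) + 4 / p * (Gd (pr z) M - j v)) =
        (Gd (pr (z + 1)) N - ((1 - 4 / p) * Gd (pr z) N + 4 / p * Gd (pr z) M)) +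
        -(j (u * (1 - 1 / p)) - ((1 - 4 * (1 / p)) * j u + 4 * (1 / p) * j (u - 1))) +
        -(4 / p * (j (u - 1) - j v)) := by ring
    rw [e]
    have h5 : |-(4 / p * (j (u - 1) - j v))| ≤ 4 / p * δ := by
      rw [abs_neg, abs_mul, abs_of_nonneg (by positivity : (0 : ℝ) ≤ 4 / p)]
      exact mul_le_mul_of_nonneg_left t3 (by positivity)
    have h6 : |-(j (u * (1 - 1 / p)) - ((1 - 4 * (1 / p)) * j u + 4 * (1 / p) * j (u - 1)))| ≤
        C * (1 / p) ^ 2 := by
      rw [abs_neg]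
      exact t1
    refine (abs_add_le _ _).trans ((add_le_add ((abs_add_le _ _).trans (add_le_add h4 h6)) h5).trans ?_)
    have h8 : C3 / p ^ 2 + C * (1 / p) ^ 2 = (C3 + C) / p ^ 2 := by
      field_simp
    rw [h8]
    have h9 : (C3 + C) / p ^ 2 ≤ ((1 + C) + (4 + C3 + C * (K * B)) + (C3 + C)) / p ^ 2 := by
      apply div_le_div_of_nonneg_right _ (by positivity)
      have : 0 ≤ C * (K * B) := by positivity
      linarith
    linarith

end Pool.Agent.H83.TM
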