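import Pool.Agent.H19.TM.Stm4
import Pool.Agent.H95.TM.Lim

/-!
# Project TM3: the module J5 (convergence for bounded `log N / log z`)
-/

set_option autoImplicit false

namespace Pool.Agent.H83.TM

open Finset Filter Topology Pool.Agent.Y862.GM Pool.Agent.H19.TM Pool.Agent.H95.TM

/-- the difference of the two functions -/
noncomputable def Dz (j : ℝ → ℝ) (z N : ℕ) : ℝ := Gd (pr z) N - j (Real.log N / Lz z)

/-- convergence for `log N ≤ K log z` -/
def Conv (j : ℝ → ℝ) (K : ℝ) : Prop := ∀ ε : ℝ, 0 < ε → ∃ A : ℕ, ∀ N z : ℕ, A ≤ N →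
  Real.log N ≤ K * Real.log z → |Dz j z N| ≤ ε

theorem conv_base (hEX : S_EX) (hJ2 : S_J2) (hJ3 : S_J3) (j : ℝ → ℝ) (hj : JProp j) : Conv j 1 := by
  intro ε hε
  obtain ⟨C, hC, -, hlip, -⟩ := hJ2 j hj 2
  set η : ℝ := min (1 / 2) (ε / (4 * (C + 1))) with hη
  have hη0 : 0 < η := by
    rw [hη]
    apply lt_min (by norm_num)
    positivity
  have hη1 : η ≤ 1 / 2 := min_le_left _ _
  have hη2 : C * (2 * η) ≤ ε / 2 := by
    have h1 : η ≤ ε / (4 * (C + 1)) := min_le_right _ _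
    rw [le_div_iff₀ (by positivity)] at h1
    nlinarith
  obtain ⟨Z1, hZ1⟩ := hJ3.1 η hη0
  obtain ⟨A, hA⟩ := hEX (ε / 2) (by positivity)
  refine ⟨A + Z1 + 3, fun N z hN hlog => ?_⟩
  rw [one_mul] at hlog
  have hN2 : (1 : ℝ) < N := by exact_mod_cast (by omega : 1 < N)
  have hlN : 0 < Real.log N := Real.log_pos hN2
  have hz0 : 0 < z := by
    rcases Nat.eq_zero_or_pos z with h | h
    · rw [h] at hlog
      simp at hlog
      linarith
    · exact h
  have hNz : N ≤ z := by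
    have h1 := (Real.log_le_log_iff (by linarith) (by exact_mod_cast hz0)).1 hlog
    exact_mod_cast h1
  have hlz : 0 < Real.log z := by linarith
  have hL := hZ1 z (by omega)
  rw [abs_le, div_sub_one hlz.ne', le_div_iff₀ hlz, div_le_iff₀ hlz] at hL
  obtain ⟨hL1, hL2⟩ := hL
  have hpos := hJ3.2.1 z
  have hLh : 1 / 2 * Real.log z ≤ Lz z := by nlinarith
  set u := Real.log N / Real.log z with hu
  set v := Real.log N / Lz z with hv
  have hu0 : 0 ≤ u := by positivity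
  have hu1 : u ≤ 1 := by
    rw [hu, div_le_one hlz]
    exact hlog
  have hv2 : v ≤ 2 := by
    rw [hv, div_le_iff₀ hpos]
    linarith
  have hvu : |v - u| ≤ 2 * η := by
    have e : v - u = u * ((Real.log z - Lz z) / Lz z) := by
      rw [hv, hu]
      field_simp
    rw [e, abs_mul, abs_of_nonneg hu0]
    have h1 : |(Real.log z - Lz z) / Lz z| ≤ 2 * η := by
      rw [abs_div, abs_of_pos hpos, div_le_iff₀ hpos]
      have h2 : |Real.log z - Lz z| ≤ η * Real.log z := by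
        rw [abs_le]
        constructor <;> linarith
      nlinarith
    calc u * |(Real.log z - Lz z) / Lz z| ≤ 1 * (2 * η) :=
          mul_le_mul hu1 h1 (abs_nonneg _) zero_le_one
      _ = 2 * η := one_mul _
  have h1 := hlip v u hv2 (by linarith)
  have h2 : |j v - j u| ≤ ε / 2 := by
    refine h1.trans ?_
    exact (mul_le_mul_of_nonneg_left hvu hC).trans hη2
  have h3 := hA z N (by omega) hNz
  have h4 := hj.2.2.1 u hu0 hu1
  rw [← hu, ← h4] at h3
  unfold Dz
  have e : Gd (pr z) N - j v = (Gd (pr z) N - j u) + -(j v - j u) := by ring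
  rw [← hv, e]
  refine (abs_add_le _ _).trans ?_
  rw [abs_neg]
  linarith

theorem log_div_nat_le {p N : ℕ} (hp : 0 < p) (hM : 0 < N / p) :
    Real.log (N / p : ℕ) ≤ Real.log N - Real.log p := by
  have hpR : (0 : ℝ) < p := by exact_mod_cast hp
  have hMR : (0 : ℝ) < ((N / p : ℕ) : ℝ) := by exact_mod_cast hM
  have hN : (0 : ℝ) < N := by
    have : 0 < N := by
      rcases Nat.eq_zero_or_pos N with h | h
      · rw [h] at hM
        simp at hM
      · exact h
    exact_mod_cast this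
  rw [← Real.log_div hN.ne' hpR.ne']
  exact Real.log_le_log hMR Nat.cast_div_le

/-- the sum over primes of `4 / q`, from the product -/
theorem sum_le_of_prod {S : Finset ℕ} (hS : ∀ q ∈ S, 7 < q) {c : ℝ} (hc : 0 < c)
    (h : c ≤ ∏ q ∈ S, (1 - 4 / (q : ℝ))) : ∑ q ∈ S, 4 / (q : ℝ) ≤ |Real.log c| := by
  have hpos : ∀ q ∈ S, 0 < 1 - 4 / (q : ℝ) := by
    intro q hq
    have h7 : (7 : ℝ) < q := by exact_mod_cast hS q hq
    rw [sub_pos, div_lt_one (by linarith)]
    linarith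
  have h1 : Real.log c ≤ Real.log (∏ q ∈ S, (1 - 4 / (q : ℝ))) := Real.log_le_log hc h
  rw [Real.log_prod (fun q hq => (hpos q hq).ne')] at h1
  have h2 : ∑ q ∈ S, Real.log (1 - 4 / (q : ℝ)) ≤ ∑ q ∈ S, -(4 / (q : ℝ)) := by
    refine sum_le_sum fun q hq => ?_
    have := Real.log_le_sub_one_of_pos (hpos q hq)
    linarith
  rw [sum_neg_distrib] at h2
  have h3 := neg_le_abs (Real.log c)
  linarith

theorem conv_step (hJ4 : S_J4) (hJ3 : S_J3) (hPV : S_PV) (j : ℝ → ℝ) (hj : JProp j) (K : ℝ)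
    (hK : 1 ≤ K) (h : Conv j K) : Conv j (K + 1 / 2) := by
  intro ε hε
  obtain ⟨c, hc, hPv⟩ := hPV
  obtain ⟨K', hK'⟩ : ∃ K' : ℝ, K' = K + 1 / 2 := ⟨_, rfl⟩
  rw [← hK']
  have hK'0 : 0 < K' := by linarith
  obtain ⟨c₁, hc₁⟩ : ∃ c₁ : ℝ, c₁ = c * (1 / K') ^ 8 := ⟨_, rfl⟩
  have hc₁0 : 0 < c₁ := by rw [hc₁]; positivity
  obtain ⟨Λ, hΛ⟩ : ∃ Λ : ℝ, Λ = |Real.log c₁| := ⟨_, rfl⟩
  have hΛ0 : 0 ≤ Λ := by rw [hΛ]; exact abs_nonneg _
  obtain ⟨δ, hδ⟩ : ∃ δ : ℝ, δ = c₁ * ε / (8 * (Λ + 1)) := ⟨_, rfl⟩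
  have hδ0 : 0 < δ := by rw [hδ]; positivity
  have hδΛ : 2 * δ * Λ ≤ c₁ * ε / 4 := by
    have h1 : δ * (8 * (Λ + 1)) = c₁ * ε := by
      rw [hδ]
      field_simp
    nlinarith
  obtain ⟨C, hC, -, hsm, hbig⟩ := hJ4 j hj K' (by linarith)
  obtain ⟨Z0, M0, hstep⟩ := hbig δ hδ0
  obtain ⟨A1, hA1⟩ := h δ hδ0
  obtain ⟨A2, hA2⟩ := h (c₁ * ε / 4) (by positivity)
  obtain ⟨A3, hA3⟩ := h ε hε
  obtain ⟨M1, hM1⟩ : ∃ M1 : ℕ, M1 = M0 + A1 + 1 := ⟨_, rfl⟩
  obtain ⟨N1, hN1⟩ := pi_small (c₁ * ε / (4 * (C * M1 + 1))) (by positivity)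
  obtain ⟨Z2, hZ2⟩ := exists_nat_ge (4 * C / (c₁ * ε))
  obtain ⟨Zs, hZs⟩ : ∃ Zs : ℕ, Zs = Z0 + Z2 + 8 := ⟨_, rfl⟩
  obtain ⟨A4, hA4⟩ : ∃ A4 : ℕ, ∀ N : ℕ, A4 ≤ N → K' * Real.log Zs < Real.log N := by
    have ht : Tendsto (fun N : ℕ => Real.log N) atTop atTop :=
      Real.tendsto_log_atTop.comp tendsto_natCast_atTop_atTop
    exact Filter.eventually_atTop.mp (ht.eventually_gt_atTop _)
  refine ⟨A2 + A3 + A4 + N1 + 2, fun N z hN hlog => ?_⟩
  by_cases hcase : Real.log N ≤ K * Real.log z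
  · exact hA3 N z (by omega) hcase
  push Not at hcase
  have hlz0 : 0 ≤ Real.log z := Real.log_natCast_nonneg z
  -- `z` is large
  have hzZ : Zs ≤ z := by
    by_contra hlt
    push Not at hlt
    have h1 : Real.log z ≤ Real.log Zs := by
      rcases Nat.eq_zero_or_pos z with h0 | h0
      · rw [h0]
        simp only [Nat.cast_zero, Real.log_zero]
        exact Real.log_natCast_nonneg _
      · exact Real.log_le_log (by exact_mod_cast h0) (by exact_mod_cast hlt.le)
    have h2 := hA4 N (by omega)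
    have h3 := mul_le_mul_of_nonneg_left h1 hK'0.le
    linarith
  have hz8 : 8 ≤ z := by omega
  have hzR : (8 : ℝ) ≤ z := by exact_mod_cast hz8
  have hlz : 0 < Real.log z := Real.log_pos (by linarith)
  have hNR : (0 : ℝ) < N := by exact_mod_cast (by omega : 0 < N)
  have hzN : z < N := by
    by_contra hge
    push Not at hge
    have h1 : Real.log N ≤ Real.log z := Real.log_le_log hNR (by exact_mod_cast hge)
    nlinarith
  have hlN : 0 < Real.log N := Real.log_pos (by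
    have : (z : ℝ) < N := by exact_mod_cast hzN
    linarith)
  obtain ⟨E, hE⟩ : ∃ E : ℝ, E = C * M1 / N := ⟨_, rfl⟩
  have hE0 : 0 ≤ E := by rw [hE]; positivity
  -- the recursion
  have hrec : ∀ n : ℕ, z ≤ n → n + 1 ≤ N → (n + 1).Prime →
      (1 - 4 / ((n + 1 : ℕ) : ℝ)) * |Dz j n N| ≤ |Dz j (n + 1) N| +
        (8 * δ / ((n + 1 : ℕ) : ℝ) + (C / ((n + 1 : ℕ) : ℝ) ^ 2 + E)) := by
    intro n hn hnN hp
    have hnlog : Real.log z ≤ Real.log n :=
      Real.log_le_log (by linarith) (by exact_mod_cast hn)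
    have hlogn : Real.log N ≤ K' * Real.log n :=
      hlog.trans (mul_le_mul_of_nonneg_left hnlog hK'0.le)
    have hnR : (8 : ℝ) ≤ n := by exact_mod_cast (by omega : 8 ≤ n)
    set p : ℝ := ((n + 1 : ℕ) : ℝ) with hpdef
    have hp9 : (9 : ℝ) ≤ p := by
      rw [hpdef]; exact_mod_cast (by omega : 9 ≤ n + 1)
    have hp0 : 0 < p := by linarith
    have h4p : 0 ≤ 4 / p := by positivity
    have h14 : 0 ≤ 1 - 4 / p := by
      rw [sub_nonneg, div_le_one hp0]; linarith
    have hCp : 0 ≤ C / p ^ 2 := by positivity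
    have h8p : 0 ≤ 8 * δ / p := by positivity
    by_cases hM : M1 ≤ N / (n + 1)
    · have h1 := hstep n N (by omega) hp hnN hlogn (by omega)
      have hlM : Real.log (N / (n + 1) : ℕ) ≤ K * Real.log n := by
        have h2 := log_div_nat_le (p := n + 1) (N := N) (by omega) (by omega)
        have h3 : Real.log n ≤ Real.log ((n + 1 : ℕ) : ℝ) :=
          Real.log_le_log (by linarith) (by push_cast; linarith)
        have h5 : 0 ≤ Real.log n := Real.log_natCast_nonneg n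
        rw [hK'] at hlogn
        nlinarith
      have h2 := hA1 (N / (n + 1)) n (by omega) hlM
      have e : (1 - 4 / p) * Dz j n N = Dz j (n + 1) N -
          (Dz j (n + 1) N - ((1 - 4 / p) * Dz j n N + 4 / p * Dz j n (N / (n + 1)))) -
          4 / p * Dz j n (N / (n + 1)) := by ring
      have h3 : |Dz j (n + 1) N - ((1 - 4 / p) * Dz j n N + 4 / p * Dz j n (N / (n + 1)))| ≤
          4 / p * δ + C / p ^ 2 := h1
      have h6 : |4 / p * Dz j n (N / (n + 1))| ≤ 4 / p * δ := by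
        rw [abs_mul, abs_of_nonneg h4p]
        exact mul_le_mul_of_nonneg_left h2 h4p
      have h7 : |(1 - 4 / p) * Dz j n N| = (1 - 4 / p) * |Dz j n N| := by
        rw [abs_mul, abs_of_nonneg h14]
      rw [← h7, e]
      have h9 : |Dz j (n + 1) N -
          (Dz j (n + 1) N - ((1 - 4 / p) * Dz j n N + 4 / p * Dz j n (N / (n + 1)))) -
          4 / p * Dz j n (N / (n + 1))| ≤ |Dz j (n + 1) N| + (4 / p * δ + C / p ^ 2) + 4 / p * δ :=
        (abs_sub _ _).trans (add_le_add ((abs_sub _ _).trans (add_le_add le_rfl h3)) h6)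
      have h10 : 4 / p * δ + 4 / p * δ = 8 * δ / p := by ring
      linarith
    · have hMlt : N / (n + 1) < M1 := by omega
      have hlt : N < M1 * (n + 1) := (Nat.div_lt_iff_lt_mul (by omega)).1 hMlt
      have hltR : (N : ℝ) ≤ M1 * p := by
        have : (N : ℝ) < M1 * p := by
          rw [hpdef]; exact_mod_cast hlt
        exact this.le
      have h1 := hsm n N (by omega) hp (by omega) hlogn
      have h2 : C / p ≤ E := by
        rw [hE, div_le_div_iff₀ hp0 hNR]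
        have := mul_le_mul_of_nonneg_left hltR hC
        nlinarith
      have h3 : |Dz j (n + 1) N - Dz j n N| ≤ C / p := h1
      have h5 : |Dz j n N| ≤ |Dz j (n + 1) N| + C / p := by
        have e : Dz j n N = Dz j (n + 1) N - (Dz j (n + 1) N - Dz j n N) := by ring
        calc |Dz j n N| = |Dz j (n + 1) N - (Dz j (n + 1) N - Dz j n N)| := by rw [← e]
          _ ≤ |Dz j (n + 1) N| + |Dz j (n + 1) N - Dz j n N| := abs_sub _ _
          _ ≤ _ := by linarith
      have h6 : (1 - 4 / p) * |Dz j n N| ≤ |Dz j n N| := by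
        have := mul_nonneg h4p (abs_nonneg (Dz j n N))
        nlinarith
      linarith
  have hnot : ∀ n : ℕ, ¬ (n + 1).Prime → Dz j (n + 1) N = Dz j n N := by
    intro n hp
    unfold Dz
    rw [pr_succ_not hp, hJ3.2.2.2 n hp]
  -- summation
  have hsum : ∀ n : ℕ, z ≤ n → n ≤ N →
      |Dz j z N| * (∏ q ∈ (Ioc z n).filter Nat.Prime, (1 - 4 / (q : ℝ))) ≤ |Dz j n N| +
        ∑ q ∈ (Ioc z n).filter Nat.Prime, (8 * δ / (q : ℝ) + (C / (q : ℝ) ^ 2 + E)) := by
    intro n hn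
    induction n, hn using Nat.le_induction with
    | base => intro _; simp
    | succ n hn ih =>
      intro hnN
      have ih := ih (by omega)
      by_cases hp : (n + 1).Prime
      · have hmem : (n + 1) ∉ (Ioc z n).filter Nat.Prime := by
          simp only [mem_filter, mem_Ioc]; omega
        rw [ioc_succ_prime hn hp, prod_insert hmem, sum_insert hmem]
        have hp9 : (9 : ℝ) ≤ ((n + 1 : ℕ) : ℝ) := by exact_mod_cast (by omega : 9 ≤ n + 1)
        have h14 : 0 ≤ 1 - 4 / ((n + 1 : ℕ) : ℝ) := by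
          rw [sub_nonneg, div_le_one (by linarith)]; linarith
        have h4p : 0 ≤ 4 / ((n + 1 : ℕ) : ℝ) := by positivity
        have hS : 0 ≤ ∑ q ∈ (Ioc z n).filter Nat.Prime, (8 * δ / (q : ℝ) + (C / (q : ℝ) ^ 2 + E)) :=
          sum_nonneg (fun q _ => by positivity)
        have h6 := hrec n hn hnN hp
        have h7 := mul_le_mul_of_nonneg_left ih h14
        rw [mul_add] at h7
        have h8 : (1 - 4 / ((n + 1 : ℕ) : ℝ)) *
            ∑ q ∈ (Ioc z n).filter Nat.Prime, (8 * δ / (q : ℝ) + (C / (q : ℝ) ^ 2 + E)) ≤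
            ∑ q ∈ (Ioc z n).filter Nat.Prime, (8 * δ / (q : ℝ) + (C / (q : ℝ) ^ 2 + E)) := by
          have := mul_nonneg h4p hS
          nlinarith
        calc |Dz j z N| * ((1 - 4 / ((n + 1 : ℕ) : ℝ)) *
              ∏ q ∈ (Ioc z n).filter Nat.Prime, (1 - 4 / (q : ℝ))) =
            (1 - 4 / ((n + 1 : ℕ) : ℝ)) * (|Dz j z N| *
              ∏ q ∈ (Ioc z n).filter Nat.Prime, (1 - 4 / (q : ℝ))) := by ring
          _ ≤ _ := h7
          _ ≤ _ := by linarith
      · rw [hnot n hp, ioc_succ_not hp]; exact ih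
  have hfin := hsum N hzN.le le_rfl
  -- the product
  have hprod : c₁ ≤ ∏ q ∈ (Ioc z N).filter Nat.Prime, (1 - 4 / (q : ℝ)) := by
    refine le_trans ?_ (hPv z N (by omega) hzN.le)
    rw [hc₁]
    apply mul_le_mul_of_nonneg_left _ hc.le
    apply pow_le_pow_left₀ (by positivity)
    rw [div_le_div_iff₀ hK'0 hlN]
    linarith
  have hs1 : ∑ q ∈ (Ioc z N).filter Nat.Prime, 4 / (q : ℝ) ≤ Λ := by
    rw [hΛ]
    refine sum_le_of_prod ?_ hc₁0 hprod
    intro q hq
    simp only [mem_filter, mem_Ioc] at hq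
    omega
  have hs2 : ∑ q ∈ (Ioc z N).filter Nat.Prime, 8 * δ / (q : ℝ) ≤ c₁ * ε / 4 := by
    have e : ∑ q ∈ (Ioc z N).filter Nat.Prime, 8 * δ / (q : ℝ) =
        2 * δ * ∑ q ∈ (Ioc z N).filter Nat.Prime, 4 / (q : ℝ) := by
      rw [mul_sum]
      refine sum_congr rfl fun q _ => by ring
    rw [e]
    exact (mul_le_mul_of_nonneg_left hs1 (by positivity)).trans hδΛ
  have hs3 := err_sum C E hC hE0 z N N (by omega) hzN.le le_rfl
  have hs4 : C / z ≤ c₁ * ε / 4 := by
    have h1 : (Z2 : ℝ) ≤ z := by exact_mod_cast (by omega : Z2 ≤ z)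
    have h2 : 4 * C / (c₁ * ε) ≤ z := hZ2.trans h1
    rw [div_le_iff₀ (by positivity)] at h2
    rw [div_le_iff₀ (by linarith)]
    linarith
  have hs5 : E * (pr N).card ≤ c₁ * ε / 4 := by
    have h1 := hN1 N (by omega)
    have h2 : E * (pr N).card ≤ E * (c₁ * ε / (4 * (C * M1 + 1)) * N) :=
      mul_le_mul_of_nonneg_left h1 hE0
    refine h2.trans ?_
    have e : E * (c₁ * ε / (4 * (C * M1 + 1)) * N) = (C * M1) * (c₁ * ε) / (4 * (C * M1 + 1)) := by
      rw [hE]
      field_simp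
    rw [e, div_le_div_iff₀ (by positivity) (by norm_num)]
    have h3 : 0 ≤ c₁ * ε := by positivity
    have h4 : 0 ≤ C * M1 := by positivity
    nlinarith
  have hs6 := hA2 N N (by omega) (by nlinarith)
  rw [sum_add_distrib] at hfin
  have h1 : |Dz j z N| * c₁ ≤ c₁ * ε := by
    have h2 := mul_le_mul_of_nonneg_left hprod (abs_nonneg (Dz j z N))
    linarith
  nlinarith

/-- **J5** -/
theorem t_J5 (hJ4 : S_J4) (hEX : S_EX) (hJ2 : S_J2) (hJ3 : S_J3) (hPV : S_PV) : S_J5 := by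
  intro j hj K hK ε hε
  have hall : ∀ n : ℕ, Conv j (1 + n / 2) := by
    intro n
    induction n with
    | zero => simpa using conv_base hEX hJ2 hJ3 j hj
    | succ n ih =>
      have h1 := conv_step hJ4 hJ3 hPV j hj (1 + n / 2) (by
        have : (0 : ℝ) ≤ (n : ℝ) / 2 := by positivity
        linarith) ih
      have e : (1 : ℝ) + n / 2 + 1 / 2 = 1 + ((n + 1 : ℕ) : ℝ) / 2 := by
        push_cast; ring
      rwa [e] at h1
  obtain ⟨n, hn⟩ := exists_nat_ge (2 * K)
  obtain ⟨A, hA⟩ := hall n ε hε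
  refine ⟨A, fun N z hN hlog => hA N z hN (hlog.trans ?_)⟩
  apply mul_le_mul_of_nonneg_right _ (Real.log_natCast_nonneg z)
  linarith

end Pool.Agent.H83.TM
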